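import Mathlib
import Pool.Agent.H58.BH.Fin

set_option autoImplicit false

namespace Pool.Agent.Results.MP_62d432_lc.HardAlmostEverywhere

open Pool.Agent.H65.TS Pool.Agent.H58.BH

/-- **The Berman-Hartmanis conjecture can fail without one-way functions although NP is hard at
almost all lengths.** Let `t` be a nondecreasing function which grows more slowly than every
function `2 ^ (n ^ ε)`. There is an oracle `O` such that, relative to `O`,
(1) any two disjoint sets in NP are separated by a set in P;
(2) there are no one-way functions;
(3) there is a set in NP which is not in P and which is hard for time `t` at all but finitely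
many lengths;
(4) there are two NP-complete sets `K` and `C` such that, for every `d`, the set `C` has, for
infinitely many `m`, fewer than `2 ^ m` elements of length at most `m ^ d`, and such that no
injective map of polynomial growth (computable or not) reduces `K` to `C`;
(5) the Berman-Hartmanis conjecture fails. -/
theorem result (t : ℕ → ℕ) (ht : Monotone t)
    (h : ∀ k : ℕ, ∃ n₀ : ℕ, ∀ n ≥ n₀, t (n ^ k) ≤ 2 ^ n) :
    ∃ O : List Bool → Bool,
      (∀ A B : Set (List Bool), InNP O A → InNP O B → Disjoint A B →
        ∃ S : Set (List Bool), InP O S ∧ A ⊆ S ∧ Disjoint S B) ∧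
      (∀ f : List Bool → List Bool, ¬ OneWay O f) ∧
      (∃ L : Set (List Bool), InNP O L ∧ ¬ InP O L ∧ HardAE O t L) ∧
      (∃ K C : Set (List Bool), NPComplete O K ∧ NPComplete O C ∧
        (∀ d m₀ : ℕ, ∃ m ≥ m₀, {z : List Bool | z ∈ C ∧ z.length ≤ m ^ d}.ncard < 2 ^ m) ∧
        ∀ f : List Bool → List Bool, Function.Injective f →
          (∃ p : Polynomial ℕ, ∀ x, (f x).length ≤ p.eval x.length) →
            ¬ ∀ x, x ∈ K ↔ f x ∈ C) ∧
      ¬ BermanHartmanis O :=
  main t ht h

end Pool.Agent.Results.MP_62d432_lc.HardAlmostEverywhere
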